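import Pool.Agent.Cube71.Basic

/-! Every saturated touching configuration around `[0,1]^3` has at least four cubes. -/

namespace Pool.Agent.Results.MP_aabb62_co.AtLeastFour

open Pool.Agent.Cube71

lemma convex_C0 : Convex ℝ C0 := by
  intro x hx y hy a b ha hb hab i
  have h1 := hx i
  have h2 := hy i
  simp only [PiLp.add_apply, PiLp.smul_apply, smul_eq_mul]
  constructor
  · nlinarith [mul_nonneg ha h1.1, mul_nonneg hb h2.1]
  · nlinarith [mul_nonneg ha (sub_nonneg.2 h1.2), mul_nonneg hb (sub_nonneg.2 h2.2)]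

lemma convex_unit {Q : Set E3} (hQ : IsUnitCube Q) : Convex ℝ Q := by
  obtain ⟨f, rfl⟩ := hQ
  have h : (f : E3 → E3) '' C0 = (f.toRealAffineIsometryEquiv.toAffineEquiv.toAffineMap : E3 → E3) '' C0 := by
    rfl
  rw [h]
  exact convex_C0.affine_image _

/-- A direction along which none of at most three linear forms increases. -/
lemma exists_dir (g : Fin 3 → (E3 →L[ℝ] ℝ)) : ∃ v : E3, v ≠ 0 ∧ ∀ i, g i v ≤ 0 := by
  let L : E3 →ₗ[ℝ] (Fin 2 → ℝ) := LinearMap.pi ![(g 0).toLinearMap, (g 1).toLinearMap]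
  have hk : LinearMap.ker L ≠ ⊥ := by
    apply LinearMap.ker_ne_bot_of_finrank_lt
    simp [finrank_euclideanSpace]
  obtain ⟨v, hv, hv0⟩ := Submodule.exists_mem_ne_zero_of_ne_bot hk
  have hL : L v = 0 := LinearMap.mem_ker.1 hv
  have h0 : g 0 v = 0 := by simpa [L] using congrFun hL 0
  have h1 : g 1 v = 0 := by simpa [L] using congrFun hL 1
  rcases le_total (g 2 v) 0 with h | h
  · refine ⟨v, hv0, fun i => ?_⟩
    fin_cases i
    · exact h0.le
    · exact h1.le
    · exact h
  · refine ⟨-v, neg_ne_zero.2 hv0, fun i => ?_⟩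
    fin_cases i
    · simp [h0]
    · simp [h1]
    · simpa using h

/-- A nonzero vector has a positive multiple all of whose coordinates are at most 1 in
absolute value, with equality for one of them. -/
lemma exists_scale {v : E3} (hv : v ≠ 0) :
    ∃ t : ℝ, 0 < t ∧ (∀ i, |(t • v) i| ≤ 1) ∧ ∃ k, |(t • v) k| = 1 := by
  obtain ⟨k, hk⟩ := Finite.exists_max fun i : Fin 3 => |v i|
  have hpos : 0 < |v k| := by
    rcases (abs_nonneg (v k)).lt_or_eq with h | h
    · exact h
    · exfalso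
      apply hv
      ext i
      have := hk i
      rw [← h] at this
      simpa using abs_nonpos_iff.1 this
  refine ⟨|v k|⁻¹, inv_pos.2 hpos, fun i => ?_, k, ?_⟩
  · rw [PiLp.smul_apply, smul_eq_mul, abs_mul, abs_inv, abs_abs]
    rw [inv_mul_le_iff₀ hpos, mul_one]
    exact hk i
  · rw [PiLp.smul_apply, smul_eq_mul, abs_mul, abs_inv, abs_abs]
    exact inv_mul_cancel₀ hpos.ne'

/-- For at most three convex sets whose interiors miss the interior of `[0,1]^3`, some
axis-parallel unit cube touches `[0,1]^3` and has interior disjoint from theirs. -/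
lemma exists_free (F : Set (Set E3)) (hfin : F.Finite) (hcard : F.ncard ≤ 3)
    (hconv : ∀ P ∈ F, Convex ℝ P) (hdis : ∀ P ∈ F, Disjoint (interior P) (interior C0)) :
    ∃ a b c : ℝ, Touch (A a b c) C0 ∧ ∀ P ∈ F, Disjoint (interior (A a b c)) (interior P) := by
  -- separating functionals
  have hsep : ∀ P : F, ∃ f : E3 →L[ℝ] ℝ, ∃ u : ℝ, (∀ a ∈ interior C0, f a < u) ∧
      ∀ b ∈ interior (P : Set E3), u < f b := by
    intro P
    exact geometric_hahn_banach_open_open convex_C0.interior isOpen_interior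
      (hconv P P.2).interior isOpen_interior (hdis P P.2).symm
  choose f hf using hsep
  have : Finite F := hfin
  have : Fintype F := Fintype.ofFinite F
  have hc : Fintype.card F ≤ Fintype.card (Fin 3) := by
    rw [Fintype.card_fin, ← Nat.card_eq_fintype_card]
    exact hcard
  obtain ⟨e⟩ := Function.Embedding.nonempty_of_card_le hc
  classical
  let g : Fin 3 → (E3 →L[ℝ] ℝ) := fun i => if h : ∃ P : F, e P = i then f h.choose else 0
  have hg : ∀ P : F, g (e P) = f P := by
    intro P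
    have h : ∃ P' : F, e P' = e P := ⟨P, rfl⟩
    simp only [g, dif_pos h]
    rw [e.injective h.choose_spec]
  obtain ⟨v, hv0, hv⟩ := exists_dir g
  obtain ⟨t, ht, hle, k, hk⟩ := exists_scale hv0
  set w : E3 := t • v with hw
  have hfw : ∀ P : F, f P w ≤ 0 := by
    intro P
    rw [hw, map_smul, smul_eq_mul, ← hg P]
    exact mul_nonpos_of_nonneg_of_nonpos ht.le (hv _)
  have hA : ∀ x : E3, x ∈ interior (A (w 0) (w 1) (w 2)) → x - w ∈ interior C0 := by
    intro x hx
    rw [interior_A] at hx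
    rw [C0_eq, interior_A]
    obtain ⟨⟨h1, h2⟩, ⟨h3, h4⟩, ⟨h5, h6⟩⟩ := hx
    refine ⟨⟨?_, ?_⟩, ⟨?_, ?_⟩, ⟨?_, ?_⟩⟩ <;> simp only [PiLp.sub_apply] <;> linarith
  refine ⟨w 0, w 1, w 2, ⟨?_, ?_⟩, ?_⟩
  · rw [Set.disjoint_left]
    intro x hx hx0
    rw [interior_A] at hx
    rw [C0_eq, interior_A] at hx0
    obtain ⟨⟨h1, h2⟩, ⟨h3, h4⟩, ⟨h5, h6⟩⟩ := hx
    obtain ⟨⟨g1, g2⟩, ⟨g3, g4⟩, ⟨g5, g6⟩⟩ := hx0
    rcases eq_or_eq_neg_of_abs_eq hk with h | h
    · fin_cases k <;> simp at h <;> linarith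
    · fin_cases k <;> simp at h <;> linarith
  · refine ⟨pt (max 0 (w 0)) (max 0 (w 1)) (max 0 (w 2)), ?_, ?_⟩
    · have a0 := abs_le.1 (hle 0)
      have a1 := abs_le.1 (hle 1)
      have a2 := abs_le.1 (hle 2)
      simp only [A, Set.mem_ofPred_eq, pt_zero, pt_one, pt_two]
      refine ⟨⟨le_max_right _ _, max_le ?_ ?_⟩, ⟨le_max_right _ _, max_le ?_ ?_⟩,
        ⟨le_max_right _ _, max_le ?_ ?_⟩⟩ <;> linarith [a0.1, a1.1, a2.1]
    · have a0 := abs_le.1 (hle 0)
      have a1 := abs_le.1 (hle 1)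
      have a2 := abs_le.1 (hle 2)
      intro i
      fin_cases i
      · simpa using a0.2
      · simpa using a1.2
      · simpa using a2.2
  · intro P hP
    rw [Set.disjoint_left]
    intro x hx hxP
    obtain ⟨u, hu1, hu2⟩ := hf ⟨P, hP⟩
    have h1 := hu1 _ (hA x hx)
    have h2 := hu2 _ hxP
    have h3 := hfw ⟨P, hP⟩
    rw [map_sub] at h1
    linarith

/-- **At least four cubes.** Every saturated touching configuration around `[0,1]^3`
consists of at least four cubes. -/
theorem result : ∀ F : Set (Set E3), IsSaturated F → 4 ≤ F.ncard := by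
  intro F hF
  by_contra hlt
  obtain ⟨a, b, c, ht, hd⟩ := exists_free F hF.finite (by omega)
    (fun P hP => convex_unit (hF.unit P hP)) (fun P hP => (hF.touch P hP).1)
  refine hF.sat ⟨A a b c, isUnitCube_A a b c, ?_, ht, hd⟩
  intro hmem
  have h := hd _ hmem
  rw [Set.disjoint_left] at h
  have hp : pt (a + 1/2) (b + 1/2) (c + 1/2) ∈ interior (A a b c) := by
    rw [interior_A]
    simp only [Ao, Set.mem_ofPred_eq, pt_zero, pt_one, pt_two]
    refine ⟨⟨?_, ?_⟩, ⟨?_, ?_⟩, ⟨?_, ?_⟩⟩ <;> linarith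
  exact h hp hp

end Pool.Agent.Results.MP_aabb62_co.AtLeastFour
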