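import Pool.Agent.Cube71.Eight

/-! Saturated configurations of axis-parallel unit cubes around `[0,1]^3`. -/

namespace Pool.Agent.Results.MP_aabb62_co.AxisParallel

open Pool.Agent.Cube71

/-- `P` is an axis-parallel unit cube, that is, a translate of `[0,1]^3`. -/
def IsAxisParallel (P : Set E3) : Prop :=
  ∃ a b c : ℝ, P = {x : E3 | (a ≤ x 0 ∧ x 0 ≤ a + 1) ∧ (b ≤ x 1 ∧ x 1 ≤ b + 1) ∧
    (c ≤ x 2 ∧ x 2 ≤ c + 1)}

/-- the eight corners -/
noncomputable def corner : Fin 8 → ℝ × ℝ × ℝ :=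
  ![(1, 1/2, 1/2), (-1, -1/2, -1/2), (-1/2, 1, 1/2), (-1/2, -1/2, 1), (1/2, -1, -1/2),
    (1/2, 1/2, -1), (1, -1, 1), (-1, 1, -1)]

/-- the eight cubes -/
noncomputable def cube (i : Fin 8) : Set E3 := A (corner i).1 (corner i).2.1 (corner i).2.2

lemma sep {a b c a' b' c' : ℝ} (h : 1 ≤ a' - a ∨ 1 ≤ a - a' ∨ 1 ≤ b' - b ∨ 1 ≤ b - b' ∨
    1 ≤ c' - c ∨ 1 ≤ c - c') : Disjoint (interior (A a b c)) (interior (A a' b' c')) := by
  rw [interior_A, interior_A, Set.disjoint_left]
  intro x hx hx'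
  simp only [Ao, Set.mem_ofPred_eq] at hx hx'
  obtain ⟨⟨h1, h2⟩, ⟨h3, h4⟩, ⟨h5, h6⟩⟩ := hx
  obtain ⟨⟨g1, g2⟩, ⟨g3, g4⟩, ⟨g5, g6⟩⟩ := hx'
  rcases h with h | h | h | h | h | h <;> linarith

lemma cube_disj (i j : Fin 8) (h : i ≠ j) : Disjoint (interior (cube i)) (interior (cube j)) := by
  apply sep
  fin_cases i <;> fin_cases j <;> first | exact absurd rfl h | (simp [corner]; done) | (simp [corner]; norm_num)

lemma cube_touch (i : Fin 8) : Touch (cube i) C0 := by
  rw [C0_eq]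
  refine ⟨?_, ?_⟩
  · apply sep
    fin_cases i <;> simp [corner]
  · refine ⟨pt (max (corner i).1 0) (max (corner i).2.1 0) (max (corner i).2.2 0), ?_⟩
    simp only [Set.mem_inter_iff, cube, A, Set.mem_ofPred_eq, pt_zero, pt_one, pt_two]
    fin_cases i <;> simp [corner] <;> norm_num

lemma cube_nonempty (i : Fin 8) : (interior (cube i)).Nonempty := by
  rw [cube, interior_A]
  refine ⟨pt ((corner i).1 + 1/2) ((corner i).2.1 + 1/2) ((corner i).2.2 + 1/2), ?_⟩
  simp only [Ao, Set.mem_ofPred_eq, pt_zero, pt_one, pt_two]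
  refine ⟨⟨?_, ?_⟩, ⟨?_, ?_⟩, ⟨?_, ?_⟩⟩ <;> linarith

lemma cube_inj : Function.Injective cube := by
  intro i j h
  by_contra hne
  have h1 := cube_disj i j hne
  rw [h, disjoint_self] at h1
  exact (cube_nonempty j).ne_empty h1

/-- if the scaled and shifted centre is close to the cube with corner number `i`, then the
interiors meet -/
lemma meets {Q : Set E3} (f : E3 ≃ᵢ E3) (hQ : Q = f '' C0) {v : ℕ × ℕ × ℕ} {a b c : ℝ}
    (ha : (v.1 : ℝ) = 256 * (a + 1)) (hb : (v.2.1 : ℝ) = 256 * (b + 1))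
    (hc : (v.2.2 : ℝ) = 256 * (c + 1))
    (h : Near (256 * (f ctr 0 + 1)) (256 * (f ctr 1 + 1)) (256 * (f ctr 2 + 1)) v) :
    ¬ Disjoint (interior Q) (interior (A a b c)) := by
  obtain ⟨p, q, r, hp, hq, hr, hn⟩ := h
  rw [ha] at hp
  rw [hb] at hq
  rw [hc] at hr
  apply meets_of_near f hQ a b c (x := pt (p / 256 - 1) (q / 256 - 1) (r / 256 - 1))
  · simp only [A, Set.mem_ofPred_eq, pt_zero, pt_one, pt_two]
    refine ⟨⟨?_, ?_⟩, ⟨?_, ?_⟩, ⟨?_, ?_⟩⟩ <;> linarith [hp.1, hp.2, hq.1, hq.2, hr.1, hr.2]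
  · apply lt_of_pow_lt_pow_left₀ 2 (by norm_num)
    rw [dist_sq]
    simp only [pt_zero, pt_one, pt_two]
    nlinarith

lemma eight : ∃ F : Set (Set E3), IsSaturated F ∧ (∀ P ∈ F, IsAxisParallel P) ∧ F.ncard = 8 := by
  refine ⟨Set.range cube, ⟨Set.finite_range _, ?_, ?_, ?_, ?_⟩, ?_, ?_⟩
  · rintro _ ⟨i, rfl⟩
    exact isUnitCube_A _ _ _
  · rintro _ ⟨i, rfl⟩
    exact cube_touch i
  · rintro _ ⟨i, rfl⟩ _ ⟨j, rfl⟩ h
    exact cube_disj i j (fun e => h (by rw [e]))
  · rintro ⟨Q, ⟨f, hQ⟩, _, ⟨hdis, hne⟩, hF⟩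
    obtain ⟨p, hpQ, hp0⟩ := hne
    have hd := dist_sq_le f hQ hpQ
    rw [dist_sq] at hd
    have h0 := hp0 0
    have h1 := hp0 1
    have h2 := hp0 2
    have b0 := abs_le_of_sq_le_sq' (a := p 0 - f ctr 0) (b := 1) (by nlinarith [sq_nonneg (p 1 - f ctr 1), sq_nonneg (p 2 - f ctr 2)]) (by norm_num)
    have b1 := abs_le_of_sq_le_sq' (a := p 1 - f ctr 1) (b := 1) (by nlinarith [sq_nonneg (p 0 - f ctr 0), sq_nonneg (p 2 - f ctr 2)]) (by norm_num)
    have b2 := abs_le_of_sq_le_sq' (a := p 2 - f ctr 2) (b := 1) (by nlinarith [sq_nonneg (p 1 - f ctr 1), sq_nonneg (p 0 - f ctr 0)]) (by norm_num)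
    rcases good_of_mem (x := 256 * (f ctr 0 + 1)) (y := 256 * (f ctr 1 + 1))
      (z := 256 * (f ctr 2 + 1)) ⟨by linarith, by linarith⟩ ⟨by linarith, by linarith⟩
      ⟨by linarith, by linarith⟩ with h | h | ⟨v, hv, h⟩
    · have := h (256 * (p 0 + 1)) (256 * (p 1 + 1)) (256 * (p 2 + 1)) ⟨by linarith, by linarith⟩
        ⟨by linarith, by linarith⟩ ⟨by linarith, by linarith⟩
      nlinarith
    · rw [C0_eq] at hdis
      exact meets f hQ (by norm_num) (by norm_num) (by norm_num) h hdis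
    · have key : ∃ i : Fin 8, ¬ Disjoint (interior Q) (interior (cube i)) := by
        simp only [V8, List.mem_cons, List.not_mem_nil, or_false] at hv
        rcases hv with rfl | rfl | rfl | rfl | rfl | rfl | rfl | rfl
        · exact ⟨0, meets f hQ (by simp [corner]; norm_num) (by simp [corner]; norm_num) (by simp [corner]; norm_num) h⟩
        · exact ⟨1, meets f hQ (by simp [corner]) (by simp [corner]; norm_num) (by simp [corner]; norm_num) h⟩
        · exact ⟨2, meets f hQ (by simp [corner]; norm_num) (by simp [corner]; norm_num) (by simp [corner]; norm_num) h⟩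
        · exact ⟨3, meets f hQ (by simp [corner]; norm_num) (by simp [corner]; norm_num) (by simp [corner]; norm_num) h⟩
        · exact ⟨4, meets f hQ (by simp [corner]; norm_num) (by simp [corner]) (by simp [corner]; norm_num) h⟩
        · exact ⟨5, meets f hQ (by simp [corner]; norm_num) (by simp [corner]; norm_num) (by simp [corner]) h⟩
        · exact ⟨6, meets f hQ (by simp [corner]; norm_num) (by simp [corner]) (by simp [corner]; norm_num) h⟩
        · exact ⟨7, meets f hQ (by simp [corner]) (by simp [corner]; norm_num) (by simp [corner]) h⟩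
      obtain ⟨i, hi⟩ := key
      exact hi (hF _ ⟨i, rfl⟩)
  · rintro _ ⟨i, rfl⟩
    exact ⟨_, _, _, rfl⟩
  · rw [Set.ncard_range_of_injective cube_inj]
    simp


/-! ### the lower bound -/

lemma convex_C0 : Convex ℝ C0 := by
  intro x hx y hy a b ha hb hab i
  have h1 := hx i
  have h2 := hy i
  simp only [PiLp.add_apply, PiLp.smul_apply, smul_eq_mul]
  constructor
  · nlinarith [mul_nonneg ha h1.1, mul_nonneg hb h2.1]
  · nlinarith [mul_nonneg ha (sub_nonneg.2 h1.2), mul_nonneg hb (sub_nonneg.2 h2.2)]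

lemma convex_unit {Q : Set E3} (hQ : IsUnitCube Q) : Convex ℝ Q := by
  obtain ⟨f, rfl⟩ := hQ
  have h : (f : E3 → E3) '' C0 =
      (f.toRealAffineIsometryEquiv.toAffineEquiv.toAffineMap : E3 → E3) '' C0 := by
    rfl
  rw [h]
  exact convex_C0.affine_image _

/-- the sign of a bit -/
def sg (b : Bool) : ℝ := if b then 1 else -1

/-- the eight test cubes at the corners of `[0,1]^3` -/
def T (s : Bool × Bool × Bool) : Set E3 := A (sg s.1) (sg s.2.1) (sg s.2.2)

/-- the opposite corner -/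
def op (s : Bool × Bool × Bool) : Bool × Bool × Bool := (!s.1, !s.2.1, !s.2.2)

lemma touch_T (s : Bool × Bool × Bool) : Touch (T s) C0 := by
  obtain ⟨a, b, c⟩ := s
  rw [C0_eq]
  refine ⟨?_, ?_⟩
  · apply sep
    cases a <;> simp [sg]
  · refine ⟨pt (max (sg a) 0) (max (sg b) 0) (max (sg c) 0), ?_⟩
    simp only [Set.mem_inter_iff, T, A, Set.mem_ofPred_eq, pt_zero, pt_one, pt_two]
    cases a <;> cases b <;> cases c <;> simp [sg]

lemma block {F : Set (Set E3)} (hF : IsSaturated F) (s : Bool × Bool × Bool) :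
    ∃ P ∈ F, ∃ x, x ∈ interior (T s) ∧ x ∈ interior P := by
  by_contra hcon
  have hd : ∀ P ∈ F, Disjoint (interior (T s)) (interior P) := by
    intro P hP
    rw [Set.disjoint_left]
    intro x hx hx'
    exact hcon ⟨P, hP, x, hx, hx'⟩
  refine hF.sat ⟨T s, isUnitCube_A _ _ _, ?_, touch_T s, hd⟩
  intro hmem
  have h := hd _ hmem
  rw [Set.disjoint_left] at h
  have hp : pt (sg s.1 + 1/2) (sg s.2.1 + 1/2) (sg s.2.2 + 1/2) ∈ interior (T s) := by
    rw [T, interior_A]
    simp only [Ao, Set.mem_ofPred_eq, pt_zero, pt_one, pt_two]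
    refine ⟨⟨?_, ?_⟩, ⟨?_, ?_⟩, ⟨?_, ?_⟩⟩ <;> linarith
  exact h hp hp

/-- an axis-parallel cube meets at most one of the eight test cubes -/
lemma axis_unique {P : Set E3} (hP : IsAxisParallel P) {s t : Bool × Bool × Bool} {x y : E3}
    (hx : x ∈ interior (T s)) (hxP : x ∈ interior P) (hy : y ∈ interior (T t))
    (hyP : y ∈ interior P) : s = t := by
  obtain ⟨a, b, c, rfl⟩ := hP
  change x ∈ interior (A a b c) at hxP
  change y ∈ interior (A a b c) at hyP
  obtain ⟨s1, s2, s3⟩ := s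
  obtain ⟨t1, t2, t3⟩ := t
  rw [T, interior_A] at hx hy
  rw [interior_A] at hxP hyP
  simp only [Ao, Set.mem_ofPred_eq] at hx hy hxP hyP
  obtain ⟨⟨x1, x2⟩, ⟨x3, x4⟩, ⟨x5, x6⟩⟩ := hx
  obtain ⟨⟨y1, y2⟩, ⟨y3, y4⟩, ⟨y5, y6⟩⟩ := hy
  obtain ⟨⟨p1, p2⟩, ⟨p3, p4⟩, ⟨p5, p6⟩⟩ := hxP
  obtain ⟨⟨q1, q2⟩, ⟨q3, q4⟩, ⟨q5, q6⟩⟩ := hyP
  have e1 : s1 = t1 := by
    cases s1 <;> cases t1 <;> simp [sg] at * <;> linarith
  have e2 : s2 = t2 := by
    cases s2 <;> cases t2 <;> simp [sg] at * <;> linarith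
  have e3 : s3 = t3 := by
    cases s3 <;> cases t3 <;> simp [sg] at * <;> linarith
  rw [e1, e2, e3]

/-- a convex set whose interior misses the interior of `[0,1]^3` does not meet two opposite test
cubes -/
lemma no_op {P : Set E3} (hc : Convex ℝ P) (hd : Disjoint (interior P) (interior C0))
    {s : Bool × Bool × Bool} {x y : E3} (hx : x ∈ interior (T s)) (hxP : x ∈ interior P)
    (hy : y ∈ interior (T (op s))) (hyP : y ∈ interior P) : False := by
  have hm : (1/2 : ℝ) • x + (1/2 : ℝ) • y ∈ interior P :=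
    hc.interior hxP hyP (by norm_num) (by norm_num) (by norm_num)
  rw [Set.disjoint_left] at hd
  apply hd hm
  rw [T, interior_A] at hx hy
  rw [C0_eq, interior_A]
  obtain ⟨s1, s2, s3⟩ := s
  obtain ⟨⟨x1, x2⟩, ⟨x3, x4⟩, ⟨x5, x6⟩⟩ := hx
  obtain ⟨⟨y1, y2⟩, ⟨y3, y4⟩, ⟨y5, y6⟩⟩ := hy
  simp only [op] at y1 y2 y3 y4 y5 y6
  refine ⟨⟨?_, ?_⟩, ⟨?_, ?_⟩, ⟨?_, ?_⟩⟩ <;>
    simp only [PiLp.add_apply, PiLp.smul_apply, smul_eq_mul] <;>
    cases s1 <;> cases s2 <;> cases s3 <;> simp [sg] at * <;> linarith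

/-- a set of corners without two opposite ones has at most four elements -/
lemma card_le_four (K : Finset (Bool × Bool × Bool)) (hK : ∀ s ∈ K, op s ∉ K) : K.card ≤ 4 := by
  have hinj : Function.Injective op := by
    intro a b h
    have : op (op a) = op (op b) := by rw [h]
    simpa [op] using this
  have h1 : (K.image op).card = K.card := Finset.card_image_of_injective K hinj
  have h2 : Disjoint K (K.image op) := by
    rw [Finset.disjoint_left]
    intro s hs hs'
    obtain ⟨t, ht, rfl⟩ := Finset.mem_image.1 hs'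
    exact hK t ht hs
  have h3 : (K ∪ K.image op).card ≤ 8 := by
    have := Finset.card_le_univ (K ∪ K.image op)
    simpa using this
  rw [Finset.card_union_of_disjoint h2, h1] at h3
  omega

lemma lower {F : Set (Set E3)} (hF : IsSaturated F) :
    8 ≤ {P ∈ F | IsAxisParallel P}.ncard + 4 * {P ∈ F | ¬ IsAxisParallel P}.ncard := by
  classical
  choose g hgF x hxT hxP using fun s => block hF s
  have hfin1 : {P ∈ F | IsAxisParallel P}.Finite := hF.finite.subset (Set.sep_subset _ _)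
  have hfin2 : {P ∈ F | ¬ IsAxisParallel P}.Finite := hF.finite.subset (Set.sep_subset _ _)
  set S1 : Finset (Bool × Bool × Bool) := Finset.univ.filter (fun s => IsAxisParallel (g s))
    with hS1
  set S2 : Finset (Bool × Bool × Bool) := Finset.univ.filter (fun s => ¬ IsAxisParallel (g s))
    with hS2
  have hsum : S1.card + S2.card = 8 := by
    have := Finset.card_filter_add_card_filter_not (s := (Finset.univ : Finset (Bool × Bool × Bool)))
      (fun s => IsAxisParallel (g s))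
    rw [hS1, hS2, this]
    rfl
  have h1 : S1.card ≤ {P ∈ F | IsAxisParallel P}.ncard := by
    rw [Set.ncard_eq_toFinset_card _ hfin1]
    refine Finset.card_le_card_of_injOn g ?_ ?_
    · intro s hs
      have hs' := (Finset.mem_filter.1 hs).2
      exact (Set.Finite.mem_toFinset hfin1).2 ⟨hgF s, hs'⟩
    · intro s hs t ht hst
      have hs' := (Finset.mem_filter.1 hs).2
      refine axis_unique hs' (hxT s) (hxP s) (hxT t) ?_
      rw [hst]
      exact hxP t
  have h2 : S2.card ≤ 4 * {P ∈ F | ¬ IsAxisParallel P}.ncard := by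
    rw [Set.ncard_eq_toFinset_card _ hfin2]
    refine Finset.card_le_mul_card_image_of_maps_to (f := g) ?_ 4 ?_
    · intro s hs
      have hs' := (Finset.mem_filter.1 hs).2
      exact (Set.Finite.mem_toFinset hfin2).2 ⟨hgF s, hs'⟩
    · intro P hP
      have hPF := ((Set.Finite.mem_toFinset hfin2).1 hP).1
      apply card_le_four
      intro s hs hs'
      have e1 := (Finset.mem_filter.1 hs).2
      have e2 := (Finset.mem_filter.1 hs').2
      refine no_op (convex_unit (hF.unit P hPF)) (hF.touch P hPF).1 (hxT s) ?_ (hxT (op s)) ?_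
      · rw [← e1]; exact hxP s
      · rw [← e2]; exact hxP (op s)
  omega

/-- **Axis-parallel cubes.** In a saturated touching configuration around `[0,1]^3` the number of
axis-parallel cubes plus four times the number of the other cubes is at least eight. In
particular a saturated touching configuration all of whose cubes are axis-parallel has at least
eight cubes, and there is one with exactly eight. -/
theorem result :
    (∀ F : Set (Set E3), IsSaturated F →
      8 ≤ {P ∈ F | IsAxisParallel P}.ncard + 4 * {P ∈ F | ¬ IsAxisParallel P}.ncard) ∧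
    (∀ F : Set (Set E3), IsSaturated F → (∀ P ∈ F, IsAxisParallel P) → 8 ≤ F.ncard) ∧
    (∃ F : Set (Set E3), IsSaturated F ∧ (∀ P ∈ F, IsAxisParallel P) ∧ F.ncard = 8) := by
  refine ⟨fun _ hF => lower hF, fun F hF hax => ?_, eight⟩
  have h := lower hF
  have e1 : {P ∈ F | IsAxisParallel P} = F := Set.sep_eq_self_iff_mem_true.2 hax
  have e2 : {P ∈ F | ¬ IsAxisParallel P} = ∅ := by
    apply Set.eq_empty_iff_forall_notMem.2
    rintro P ⟨hP, hP'⟩
    exact hP' (hax P hP)
  rw [e1, e2, Set.ncard_empty] at h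
  omega

end Pool.Agent.Results.MP_aabb62_co.AxisParallel
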