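import Pool.Agent.Cube71.Six

/-! Six unit cubes touching `[0,1]^3` can be saturated. -/

namespace Pool.Agent.Results.MP_aabb62_co.SaturatedSix

open Pool.Agent.Cube71

/-- **Six unit cubes can be saturated.** There is a saturated touching configuration
around `[0,1]^3` with exactly six cubes. -/
theorem result : ∃ F : Set (Set E3), IsSaturated F ∧ F.ncard = 6 := by
  refine ⟨Set.range cube6, ⟨Set.finite_range _, ?_, ?_, ?_, ?_⟩, ?_⟩
  · rintro _ ⟨i, rfl⟩
    exact unit6 i
  · rintro _ ⟨i, rfl⟩
    exact touch6 i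
  · rintro _ ⟨i, rfl⟩ _ ⟨j, rfl⟩ h
    exact (disj6 fun e => h (by rw [e])).mono interior_subset interior_subset
  · rintro ⟨Q, hQ, _, ht, hF⟩
    exact no_more hQ ht fun i => hF _ ⟨i, rfl⟩
  · rw [Set.ncard_range_of_injective inj6]
    simp

end Pool.Agent.Results.MP_aabb62_co.SaturatedSix
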